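import Pool.Agent.helper19.FR.Spec

/-!
# Row fr:GLB (project FR, MP_bf63dc_nt): from finite sets to all integers
-/

set_option autoImplicit false

namespace Pool.Agent.FR

open Finset Real Pool.Agent.AT Pool.Agent.OM Pool.Agent.helper85.FC

/-- **GLB** -/
theorem GLB (hKFR : KFR_stmt) : GLB_stmt := by
  intro ε hε
  obtain ⟨C, hC⟩ := hKFR ε hε
  have hpos : ∀ N : ℕ, ∀ s ∈ Finset.Icc 1 N, 0 < s := by
    intro N s hs
    exact (Finset.mem_Icc.1 hs).1
  choose E hEc hEf using fun N : ℕ => hC (Finset.Icc 1 N) (hpos N)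
  have hfin : {r : ℕ × ℕ | ∀ᶠ N in (Filter.hyperfilter ℕ : Filter ℕ), r ∈ E N}.Finite := by
    by_contra hinf
    obtain ⟨T, hTS, hTc⟩ := Set.Infinite.exists_subset_card_eq hinf (C + 1)
    have h1 : ∀ᶠ N in (Filter.hyperfilter ℕ : Filter ℕ), ∀ r ∈ T, r ∈ E N := by
      rw [Filter.eventually_all_finset]
      intro r hr
      exact hTS hr
    obtain ⟨N, hN⟩ := h1.exists
    have h2 : #T ≤ #(E N) := Finset.card_le_card hN
    have h3 := hEc N
    omega
  refine ⟨hfin.toFinset, ?_⟩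
  intro s hs hinj hne
  have h1 : ∀ᶠ N in (Filter.hyperfilter ℕ : Filter ℕ), ∀ i : Fin 4, ∀ j : Fin 4, i ≠ j → rp (s i) (s j) ∉ E N := by
    rw [Filter.eventually_all]
    intro i
    rw [Filter.eventually_all]
    intro j
    by_cases hij : i = j
    · refine Filter.Eventually.of_forall ?_
      intro N h
      exact absurd hij h
    · have h2 := hne i j hij
      rw [Set.Finite.mem_toFinset, Set.mem_ofPred_eq] at h2
      have h3 : ∀ᶠ N in (Filter.hyperfilter ℕ : Filter ℕ), rp (s i) (s j) ∉ E N :=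
        Ultrafilter.eventually_not.2 h2
      filter_upwards [h3] with N hN _
      exact hN
  have h4 : ∀ᶠ N in (Filter.hyperfilter ℕ : Filter ℕ), ∀ i : Fin 4, s i ≤ N := by
    rw [Filter.eventually_all]
    intro i
    exact Filter.Eventually.filter_mono Nat.hyperfilter_le_atTop (Filter.eventually_ge_atTop (s i))
  obtain ⟨N, hN1, hN2⟩ := (h1.and h4).exists
  refine hEf N s ?_ hinj hN1
  intro i
  refine ⟨(hs i).1, ?_⟩
  rw [Finset.mem_coe, Finset.mem_Icc]
  exact ⟨(hs i).1, hN2 i⟩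

end Pool.Agent.FR
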